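import Pool.Agent.Helper21.MX.Defs
import Pool.Agent.Helper8.PQ.Inst
import Pool.Agent.Helper45.SP.QCoef
import Pool.Agent.Helper59.SP.SignPart

/-!
# Sparse and dense comparisons together: the sparse sign queries (piece S)
-/

set_option autoImplicit false

namespace Pool.Agent.Helper21.MX

open Finset
open Pool.Agent.Helper22.ETModel Pool.Agent.Helper22.TSModel Pool.Agent.Helper22.EP
open Pool.Agent.Helper23.SP (pre sg Om g put supp Free SparseQ qcoef)
open Pool.Agent.Helper8.ZT (pev covp LineOK)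
open Pool.Agent.Helper21.DS (cove strc)
open Pool.Agent.Helper8.PQ
open Pool.Agent.Helper21.MG (SparseForm)

/-! ## The form as a form in the values of the elements -/

section form

variable {m n s κ B s0 Q : ℕ} {Λ : ℝ}

private lemma eval_qp_aux (h : 3 * m ≤ n) (f : MvPolynomial (Fin n × Fin n) ℝ) (w : E m → ℝ) :
    MvPolynomial.eval w (qp h f) = MvPolynomial.eval (fun q : Fin n × Fin n =>
      ∑ e, ((if enc h e = (q.1, q.2) then (1 : ℝ) else 0) +
        (if enc h e = (q.2, q.1) then 1 else 0)) * ((sg e : ℝ) * w e)) f := by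
  unfold qp redP
  rw [eval_aeval, eval_aeval]
  congr 2
  funext q
  unfold gq
  rw [map_sum]
  refine sum_congr rfl fun e _ => ?_
  rw [map_mul, MvPolynomial.eval_C, MvPolynomial.eval_X, map_mul, MvPolynomial.eval_C,
    MvPolynomial.eval_X]

/-- A linear polynomial. -/
private noncomputable def linp (z : ℤ) (γ : E m → ℤ) : MvPolynomial (E m) ℝ :=
  MvPolynomial.C (z : ℝ) + ∑ e, MvPolynomial.C (γ e : ℝ) * MvPolynomial.X e

private lemma eval_linp (z : ℤ) (γ : E m → ℤ) (w : E m → ℝ) :
    MvPolynomial.eval w (linp z γ) = (z : ℝ) + ∑ e, (γ e : ℝ) * w e := by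
  unfold linp
  rw [map_add, map_sum, MvPolynomial.eval_C]
  congr 1
  refine sum_congr rfl fun e _ => ?_
  rw [map_mul, MvPolynomial.eval_C, MvPolynomial.eval_X]

private lemma coeff_linp (z : ℤ) (γ : E m → ℤ) (e : E m) :
    (linp z γ).coeff (Finsupp.single e 1) = (γ e : ℝ) := by
  classical
  unfold linp
  rw [MvPolynomial.coeff_add, MvPolynomial.coeff_sum, MvPolynomial.coeff_C,
    if_neg (by
      intro h0
      have := DFunLike.congr_fun h0 e
      simp at this), zero_add, sum_eq_single e]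
  · rw [MvPolynomial.coeff_C_mul, MvPolynomial.coeff_X, if_pos rfl, mul_one]
  · intro e' _ hne
    rw [MvPolynomial.coeff_C_mul, MvPolynomial.coeff_X, if_neg, mul_zero]
    intro h0
    exact hne (Finsupp.single_left_injective one_ne_zero h0)
  · intro h0
    exact absurd (mem_univ e) h0

lemma sparse_lin (h : 3 * m ≤ n) {f : MvPolynomial (Fin n × Fin n) ℝ}
    (hf : SparseForm s κ B f) : ∃ (z : ℤ) (γ : E m → ℤ), |z| ≤ B ∧ ∑ e, |γ e| ≤ s * κ ∧
      (supp γ).card ≤ s ∧ qp h f = MvPolynomial.C (z : ℝ) +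
        ∑ e, MvPolynomial.C (γ e : ℝ) * MvPolynomial.X e ∧ sup h f = supp γ := by
  classical
  obtain ⟨z, γ0, v, hz, hγ, hfe⟩ := hf
  set q : SparseQ n s κ B := ⟨v, γ0, z, hγ, hz⟩ with hq
  have hqp : qp h f = linp z (qcoef h q) := by
    apply MvPolynomial.funext
    intro w
    rw [eval_qp_aux, eval_linp, hfe, map_add, MvPolynomial.eval_C, map_sum]
    congr 1
    have h1 : ∀ l : Fin s, MvPolynomial.eval (fun q : Fin n × Fin n =>
        ∑ e, ((if enc h e = (q.1, q.2) then (1 : ℝ) else 0) +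
        (if enc h e = (q.2, q.1) then 1 else 0)) * ((sg e : ℝ) * w e))
        (MvPolynomial.C (γ0 l : ℝ) * MvPolynomial.X (v l)) =
        ∑ e, (γ0 l : ℝ) * (((if enc h e = v l then (1 : ℝ) else 0) +
        (if enc h e = (v l).swap then 1 else 0)) * ((sg e : ℝ) * w e)) := by
      intro l
      rw [map_mul, MvPolynomial.eval_C, MvPolynomial.eval_X, mul_sum]
      rfl
    rw [sum_congr rfl fun l _ => h1 l, sum_comm]
    refine sum_congr rfl fun e _ => ?_
    unfold qcoef
    push_cast
    rw [mul_sum, sum_mul]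
    refine sum_congr rfl fun l _ => ?_
    ring
  refine ⟨z, qcoef h q, hz, Pool.Agent.Helper45.SP.sum_qcoef h q,
    Pool.Agent.Helper45.SP.card_supp_qcoef h q, hqp, ?_⟩
  ext e
  unfold sup supp
  rw [mem_filter, mem_filter, hqp, coeff_linp]
  simp

lemma sset_card (h : 3 * m ≤ n) (δ : E m → Bool) (f : MvPolynomial (Fin n × Fin n) ℝ) :
    (sset h s κ B s0 Q Λ δ f).card ≤ max s s0 := by
  classical
  unfold sset
  split_ifs with h1 h2 h3
  · simp
  · obtain ⟨z, γ, -, -, h4, -, h5⟩ := sparse_lin h h1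
    rw [h5]
    exact h4.trans (le_max_left _ _)
  · exact h3.trans (le_max_right _ _)
  · simp

end form

/-! ## The signs -/

section sgn

variable {m n k b U M N s κ B s0 L Y Q : ℕ} {Λ : ℝ} [NeZero b]

private lemma sign_cast (x : ℤ) : SignType.sign ((x : ℤ) : ℝ) = SignType.sign x := by
  rcases lt_trichotomy x 0 with h | h | h
  · rw [sign_neg h, sign_neg (by exact_mod_cast h)]
  · subst h; simp
  · rw [sign_pos h, sign_pos (by exact_mod_cast h)]

private lemma sign_eval_lin (z : ℤ) (γ V : E m → ℤ) :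
    SignType.sign (MvPolynomial.eval (fun e => ((V e : ℤ) : ℝ)) (MvPolynomial.C (z : ℝ) +
      ∑ e, MvPolynomial.C (γ e : ℝ) * MvPolynomial.X e)) =
    SignType.sign (z + ∑ e, γ e * V e) := by
  rw [← sign_cast]
  have h1 := eval_linp z γ (fun e => ((V e : ℤ) : ℝ))
  unfold linp at h1
  rw [h1]
  push_cast
  rfl

private lemma par_bd (e : E m) : 0 ≤ par e ∧ par e ≤ 1 := by
  unfold par
  split_ifs <;> norm_num

private lemma one_le_powM (hY : M ≤ Y) (ω : Om (E m) k b U) (lam : BgM m k U M N) (e : E m) :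
    1 ≤ Y ^ k := by
  rcases Nat.eq_zero_or_pos k with hk | hk
  · rw [hk, pow_zero]
  · have h1 := (lam.2.1 ⟨0, hk⟩ (g ⟨0, hk⟩ ω e)).isLt
    exact Nat.one_le_pow _ _ (by omega)

/-- The noise of an element that is not deleted. -/
private def nz (lam : BgM m k U M N) (e : E m) : ℤ := 2 * ((lam.2.2 e : ℕ) : ℤ) + par e

private lemma abs_nz_le (lam : BgM m k U M N) (e : E m) : |nz lam e| ≤ 2 * N + 1 := by
  have h1 := par_bd e
  have hN : (((lam.2.2 e : ℕ) : ℤ)) ≤ (N : ℤ) := by
    have := (lam.2.2 e).isLt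
    exact_mod_cast (by omega : (lam.2.2 e : ℕ) ≤ N)
  have h0 : (0 : ℤ) ≤ ((lam.2.2 e : ℕ) : ℤ) := by positivity
  unfold nz
  rw [abs_le]
  constructor <;> linarith

private lemma vl_del (L Y Q : ℕ) (ω : Om (E m) k b U) {lam : BgM m k U M N} {e : E m}
    (he : lam.1 e = true) :
    vl L Y Q ω.1 (cmp ω.2 lam) e = (Q : ℤ) * ((lam.2.2 e : ℕ) : ℤ) + par e := by
  unfold vl
  rw [if_pos (show (cmp ω.2 lam).1 e = true from he)]
  rfl

private lemma vl_nd (L Y Q : ℕ) (ω : Om (E m) k b U) {lam : BgM m k U M N} {e : E m}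
    (he : lam.1 e = false) :
    vl L Y Q ω.1 (cmp ω.2 lam) e = (∑ i : Fin k, (L : ℤ) * (Y : ℤ) ^ (k - 1 - i.val) *
      ((lam.2.1 i (g i ω e) : ℕ) : ℤ)) + nz lam e := by
  unfold vl
  rw [if_neg (show ¬ (cmp ω.2 lam).1 e = true by
    show ¬ lam.1 e = true
    rw [he]; decide)]
  unfold strc nz
  rw [mul_sum]
  have h1 : ∑ i : Fin k, (L : ℤ) * ((Y : ℤ) ^ (k - 1 - i.val) *
      (((cmp ω.2 lam).2.1 i (pre (i.val + 1) (ω.1 e)) : ℕ) : ℤ)) =
      ∑ i : Fin k, (L : ℤ) * (Y : ℤ) ^ (k - 1 - i.val) * ((lam.2.1 i (g i ω e) : ℕ) : ℤ) :=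
    sum_congr rfl fun i _ => by rw [← mul_assoc]; rfl
  rw [h1]
  show _ + 2 * ((lam.2.2 e : ℕ) : ℤ) + par e = _
  ring

/-- A deleted element with nonzero coefficient decides the sign. -/
private lemma sign_dead {c W : ℕ} {z : ℤ} {γ : E m → ℤ} (hz : |z| ≤ B) (hγ : ∑ e, |γ e| ≤ c)
    (hQ : c * W + B + 1 ≤ Q) {δ : E m → Bool} {ν V : E m → ℤ}
    (h1 : ∀ e, δ e = true → |V e - Q * ν e| ≤ W) (h2 : ∀ e, δ e = false → |V e| ≤ W)
    (hT : ∑ e, (if δ e = true then γ e * ν e else 0) ≠ 0) :
    SignType.sign (z + ∑ e, γ e * V e) =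
      SignType.sign (∑ e, (if δ e = true then γ e * ν e else 0)) := by
  have h3 : ∀ e, |V e - (if δ e = true then Q * ν e else 0)| ≤ W := by
    intro e
    rcases Bool.eq_false_or_eq_true (δ e) with he | he
    · rw [if_pos he]; exact h1 e he
    · rw [if_neg (by rw [he]; decide), sub_zero]; exact h2 e he
  have h4 : z + ∑ e, γ e * V e = Q * (∑ e, (if δ e = true then γ e * ν e else 0)) +
      (z + ∑ e, γ e * (V e - (if δ e = true then Q * ν e else 0))) := by
    rw [mul_sum, add_left_comm, ← sum_add_distrib]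
    congr 1
    refine sum_congr rfl fun e _ => ?_
    split_ifs <;> ring
  rw [h4]
  refine Pool.Agent.Helper59.SP.sign_mul_add hT ?_
  have h5 : |∑ e, γ e * (V e - (if δ e = true then Q * ν e else 0))| ≤ c * W := by
    refine (abs_sum_le_sum_abs _ _).trans ?_
    calc ∑ e, |γ e * (V e - (if δ e = true then Q * ν e else 0))| ≤ ∑ e, |γ e| * (W : ℤ) := by
          refine sum_le_sum fun e _ => ?_
          rw [abs_mul]
          exact mul_le_mul_of_nonneg_left (h3 e) (abs_nonneg _)
      _ = (∑ e, |γ e|) * (W : ℤ) := by rw [sum_mul]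
      _ ≤ c * W := mul_le_mul_of_nonneg_right hγ (by positivity)
  have h6 : (c : ℤ) * W + B + 1 ≤ Q := by exact_mod_cast hQ
  have h7 := abs_add_le z (∑ e, γ e * (V e - (if δ e = true then Q * ν e else 0)))
  linarith

/-- The sum of the masks on level `i`. -/
private noncomputable def Zm (γ : E m → ℤ) (ω : Om (E m) k b U) (lam : BgM m k U M N) (i : Fin k) : ℤ :=
  Pool.Agent.Helper59.SP.Zs (fun u => ((lam.2.1 i u : Fin M) : ℕ)) γ ω i

private lemma Zm_eq (γ : E m → ℤ) (ω : Om (E m) k b U) (lam : BgM m k U M N) (i : Fin k) :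
    Zm γ ω lam i = ∑ e, γ e * ((lam.2.1 i (g i ω e) : ℕ) : ℤ) := rfl

/-- The first level with a nonzero sum decides the sign. -/
private lemma sign_lvl {c : ℕ} {z : ℤ} {γ : E m → ℤ} {ω : Om (E m) k b U} {lam : BgM m k U M N}
    (hz : |z| ≤ B) (hγ : ∑ e, |γ e| ≤ c) (hY : c * M ≤ Y)
    (hL : B + c * (2 * N + 1) + 1 ≤ L) {i0 : Fin k} (h0 : ∀ i < i0, Zm γ ω lam i = 0)
    (hi : Zm γ ω lam i0 ≠ 0) {A : Fin k → Finset (E m)}
    (hA : ∀ i ≤ i0, ∀ e, γ e ≠ 0 → e ∈ A i) {w V : E m → ℤ} (hw : ∀ e, |w e| ≤ 2 * N + 1)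
    (hV : ∀ e, γ e ≠ 0 → V e = (∑ i : Fin k, if e ∈ A i then
      (L : ℤ) * (Y : ℤ) ^ (k - 1 - i.val) * ((lam.2.1 i (g i ω e) : ℕ) : ℤ) else 0) + w e) :
    SignType.sign (z + ∑ e, γ e * V e) = SignType.sign (Zm γ ω lam i0) := by
  set Z : Fin k → ℤ := fun i => ∑ e, γ e *
    (if e ∈ A i then ((lam.2.1 i (g i ω e) : ℕ) : ℤ) else 0) with hZ
  have hZeq : ∀ i ≤ i0, Z i = Zm γ ω lam i := by
    intro i hi
    rw [hZ, Zm_eq]
    refine sum_congr rfl fun e _ => ?_
    by_cases he : γ e = 0
    · rw [he, zero_mul, zero_mul]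
    · rw [if_pos (hA i hi e he)]
  have hc1 : (1 : ℤ) ≤ c ∧ (1 : ℤ) ≤ M := by
    rw [Zm_eq] at hi
    obtain ⟨e, -, he⟩ := exists_ne_zero_of_sum_ne_zero hi
    have he' : γ e ≠ 0 := fun h => he (by rw [h, zero_mul])
    constructor
    · exact (Int.one_le_abs he').trans ((single_le_sum (f := fun e => |γ e|)
        (fun e _ => abs_nonneg _) (mem_univ e)).trans hγ)
    · have := (lam.2.1 i0 (g i0 ω e)).isLt
      exact_mod_cast (by omega : 1 ≤ M)
  have hZb : ∀ i, |Z i| < Y := by
    intro i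
    have h1 : |Z i| ≤ c * (M - 1) := by
      rw [hZ]
      refine (abs_sum_le_sum_abs _ _).trans ?_
      calc ∑ e, |γ e * (if e ∈ A i then ((lam.2.1 i (g i ω e) : ℕ) : ℤ) else 0)|
          ≤ ∑ e, |γ e| * ((M : ℤ) - 1) := by
            refine sum_le_sum fun e _ => ?_
            rw [abs_mul]
            refine mul_le_mul_of_nonneg_left ?_ (abs_nonneg _)
            split_ifs
            · rw [abs_of_nonneg (by positivity)]
              have h2 := (lam.2.1 i (g i ω e)).isLt
              have h3 : ((lam.2.1 i (g i ω e) : ℕ) : ℤ) + 1 ≤ M := by exact_mod_cast h2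
              linarith
            · rw [abs_zero]; linarith [hc1.2]
        _ = (∑ e, |γ e|) * ((M : ℤ) - 1) := by rw [sum_mul]
        _ ≤ c * ((M : ℤ) - 1) := mul_le_mul_of_nonneg_right hγ (by linarith [hc1.2])
    have h2 : (c : ℤ) * M ≤ Y := by exact_mod_cast hY
    have h3 : (c : ℤ) * ((M : ℤ) - 1) = c * M - c := by ring
    linarith [hc1.1]
  have h1 := Pool.Agent.Helper59.SP.sign_horner Y k Z hZb i0
    (fun i hi => by rw [hZeq i hi.le]; exact h0 i hi) (by rw [hZeq i0 le_rfl]; exact hi)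
  rw [hZeq i0 le_rfl] at h1
  have h2 : z + ∑ e, γ e * V e = L * (∑ r : Fin k, (Y : ℤ) ^ (k - 1 - r.val) * Z r) +
      (z + ∑ e, γ e * w e) := by
    have h3 : ∑ r : Fin k, (Y : ℤ) ^ (k - 1 - r.val) * Z r = ∑ e, γ e *
        ∑ r : Fin k, (if e ∈ A r then (Y : ℤ) ^ (k - 1 - r.val) *
          ((lam.2.1 r (g r ω e) : ℕ) : ℤ) else 0) := by
      rw [hZ]
      simp only [mul_sum]
      rw [sum_comm]
      refine sum_congr rfl fun e _ => sum_congr rfl fun r _ => ?_
      split_ifs <;> ring
    rw [h3, mul_sum, add_left_comm, ← sum_add_distrib]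
    congr 1
    refine sum_congr rfl fun e _ => ?_
    by_cases he : γ e = 0
    · rw [he]; ring
    · rw [hV e he]
      have h4 : (∑ i : Fin k, if e ∈ A i then (L : ℤ) * (Y : ℤ) ^ (k - 1 - i.val) *
          ((lam.2.1 i (g i ω e) : ℕ) : ℤ) else 0) = L * ∑ r : Fin k, (if e ∈ A r then
          (Y : ℤ) ^ (k - 1 - r.val) * ((lam.2.1 r (g r ω e) : ℕ) : ℤ) else 0) := by
        rw [mul_sum]
        refine sum_congr rfl fun r _ => ?_
        split_ifs <;> ring
      rw [h4]
      ring
  rw [h2, ← h1]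
  refine Pool.Agent.Helper59.SP.sign_mul_add ?_ ?_
  · intro h5
    rw [h5, sign_zero] at h1
    exact hi (sign_eq_zero_iff.1 h1.symm)
  · have h5 : |∑ e, γ e * w e| ≤ c * (2 * N + 1) := by
      refine (abs_sum_le_sum_abs _ _).trans ?_
      calc ∑ e, |γ e * w e| ≤ ∑ e, |γ e| * (2 * (N : ℤ) + 1) := by
            refine sum_le_sum fun e _ => ?_
            rw [abs_mul]
            exact mul_le_mul_of_nonneg_left (hw e) (abs_nonneg _)
        _ = (∑ e, |γ e|) * (2 * (N : ℤ) + 1) := by rw [sum_mul]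
        _ ≤ c * (2 * N + 1) := mul_le_mul_of_nonneg_right hγ (by positivity)
    have h6 : (B : ℤ) + c * (2 * N + 1) + 1 ≤ L := by exact_mod_cast hL
    have h7 := abs_add_le z (∑ e, γ e * w e)
    linarith

/-- If the form passes level `r`, then all its elements are revealed there. -/
private lemma hm_supp {γ : E m → ℤ} {ω : Om (E m) k b U} {r : ℕ}
    (hP : Pool.Agent.Helper23.SP.Pass γ ω r) : hm (supp γ) ω r = supp γ := by
  induction r with
  | zero => rfl
  | succ r ih =>
    have ih' := ih (hP.mono (Nat.le_succ r))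
    ext e
    rw [mem_hm_succ, ih']
    refine ⟨fun h => h.1, fun he => ⟨he, fun i hi => ?_⟩⟩
    by_contra hcon
    push Not at hcon
    have h1 := hP i (by omega) (g i ω e)
    rw [sum_eq_single_of_mem e (by simp) (fun e' he' hne => by
      by_contra h2
      exact hcon e' (Pool.Agent.Helper23.SP.mem_supp.2 h2) hne (mem_filter.1 he').2)] at h1
    exact Pool.Agent.Helper23.SP.mem_supp.1 he h1

/-- Sparse sign queries are good. -/
theorem good_sparse (hLB : B + s * κ * (2 * N + 1) + 1 ≤ L) (hL : 2 * N + 2 ≤ L) (hY : M ≤ Y)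
    (hYs : s * κ * M ≤ Y) (hQs : s * κ * (L * Y ^ k) + B + 1 ≤ Q) (h : 3 * m ≤ n)
    {f : MvPolynomial (Fin n × Fin n) ℝ} (hf : SparseForm s κ B f) (ω : Om (E m) k b U)
    (lam : BgM m k U M N) (hok : SpOK s (s * κ) lam) (x y : E m) :
    GoodM L Y Q (qp h f) (sset h s κ B s0 Q Λ lam.1 f) ω lam x y := by
  classical
  obtain ⟨z, γ, hz, hγ, hs, hq, hsup⟩ := sparse_lin h hf
  have hγ' : ∑ e, |γ e| ≤ ((s * κ : ℕ) : ℤ) := by push_cast; exact hγ
  have hγe : ∀ e, |γ e| ≤ ((s * κ : ℕ) : ℤ) := fun e =>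
    (single_le_sum (f := fun e => |γ e|) (fun e _ => abs_nonneg _) (mem_univ e)).trans hγ'
  have hreal : vrM L Y Q ω lam = fun e => ((vl L Y Q ω.1 (cmp ω.2 lam) e : ℤ) : ℝ) := rfl
  have hplant : Function.update (vrM L Y Q ω lam) x (vrM L Y Q ω lam y) =
      fun e => ((if e = x then vl L Y Q ω.1 (cmp ω.2 lam) y
        else vl L Y Q ω.1 (cmp ω.2 lam) e : ℤ) : ℝ) := by
    funext e
    rw [Function.update_apply]
    split_ifs <;> rfl
  set S := sset h s κ B s0 Q Λ lam.1 f with hS
  have hideal : iptM L Y Q S ω lam = fun e => ((if lam.1 e = true then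
      vl L Y Q ω.1 (cmp ω.2 lam) e else if e ∈ S then rpM L Y S ω lam e else 0 : ℤ) : ℝ) := by
    funext e
    unfold iptM
    split_ifs
    · rfl
    · rfl
    · rw [Int.cast_zero]
  unfold GoodM idlM
  rw [hq, hplant, hideal, hreal, sign_eval_lin, sign_eval_lin, sign_eval_lin]
  by_cases hdel : ∃ e ∈ sup h f, lam.1 e = true
  · -- a deleted element
    have hS0 : S = ∅ := by
      rw [hS]; unfold sset; rw [if_pos hf, if_pos hdel]
    obtain ⟨e0, he0, hd0⟩ := hdel
    rw [hsup] at he0
    have he0' := Pool.Agent.Helper23.SP.mem_supp.1 he0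
    have hT : ∑ e, (if lam.1 e = true then γ e * ((lam.2.2 e : ℕ) : ℤ) else 0) ≠ 0 :=
      hok.2 γ hs hγe ⟨e0, hd0, he0'⟩
    have hW : (1 : ℤ) ≤ ((L * Y ^ k : ℕ) : ℤ) := by
      have h1 := one_le_powM hY ω lam e0
      have h2 : 1 ≤ L := by omega
      exact_mod_cast Nat.mul_pos h2 h1
    have key : ∀ V : E m → ℤ, (∀ e, lam.1 e = true →
        V e = (Q : ℤ) * ((lam.2.2 e : ℕ) : ℤ) + par e) →
        (∀ e, lam.1 e = false → 0 ≤ V e ∧ V e ≤ (L : ℤ) * (Y : ℤ) ^ k) →
        SignType.sign (z + ∑ e, γ e * V e) = SignType.sign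
          (∑ e, (if lam.1 e = true then γ e * ((lam.2.2 e : ℕ) : ℤ) else 0)) := by
      intro V h1 h2
      refine sign_dead (B := B) (Q := Q) hz hγ' hQs (fun e he => ?_) (fun e he => ?_) hT
      · have h3 := par_bd e
        rw [h1 e he, add_sub_cancel_left, abs_of_nonneg h3.1]
        exact h3.2.trans hW
      · rw [abs_of_nonneg (h2 e he).1]
        push_cast
        exact (h2 e he).2
    have hnd : ∀ e, lam.1 e = false → 0 ≤ vl L Y Q ω.1 (cmp ω.2 lam) e ∧
        vl L Y Q ω.1 (cmp ω.2 lam) e ≤ (L : ℤ) * (Y : ℤ) ^ k := fun e he =>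
      ⟨vl_nonneg L Y Q ω.1 (cmp ω.2 lam) e, vl_le L Y Q hL hY ω.1 (cmp ω.2 lam) e he⟩
    have hid := key (fun e => if lam.1 e = true then vl L Y Q ω.1 (cmp ω.2 lam) e
      else if e ∈ S then rpM L Y S ω lam e else 0)
      (fun e he => by
        show (if lam.1 e = true then vl L Y Q ω.1 (cmp ω.2 lam) e
          else if e ∈ S then rpM L Y S ω lam e else 0) = _
        rw [if_pos he]; exact vl_del L Y Q ω he)
      (fun e he => by
        show 0 ≤ (if lam.1 e = true then vl L Y Q ω.1 (cmp ω.2 lam) e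
          else if e ∈ S then rpM L Y S ω lam e else 0) ∧ (if lam.1 e = true then
          vl L Y Q ω.1 (cmp ω.2 lam) e else if e ∈ S then rpM L Y S ω lam e else 0) ≤ _
        rw [if_neg (by rw [he]; decide), hS0, if_neg (Finset.notMem_empty e)]
        exact ⟨le_rfl, by positivity⟩)
    have hre := key (vl L Y Q ω.1 (cmp ω.2 lam)) (fun e he => vl_del L Y Q ω he) hnd
    refine ⟨hre.trans hid.symm, fun hx hy _ _ _ => ?_⟩
    refine Eq.trans (key _ (fun e he => ?_) (fun e he => ?_)) hid.symm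
    · have hne : e ≠ x := fun h0 => by
        rw [h0, hx] at he
        exact absurd he (by decide)
      rw [if_neg hne]
      exact vl_del L Y Q ω he
    · show 0 ≤ (if e = x then vl L Y Q ω.1 (cmp ω.2 lam) y
          else vl L Y Q ω.1 (cmp ω.2 lam) e) ∧ (if e = x then vl L Y Q ω.1 (cmp ω.2 lam) y
          else vl L Y Q ω.1 (cmp ω.2 lam) e) ≤ _
      split_ifs
      · exact hnd y hy
      · exact hnd e he
  · -- no deleted element
    have hS0 : S = supp γ := by
      rw [hS]; unfold sset; rw [if_pos hf, if_neg hdel, hsup]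
    have hal : ∀ e, γ e ≠ 0 → lam.1 e = false := by
      intro e he
      rcases Bool.eq_false_or_eq_true (lam.1 e) with h1 | h1
      · exact absurd ⟨e, by rw [hsup]; exact Pool.Agent.Helper23.SP.mem_supp.2 he, h1⟩ hdel
      · exact h1
    by_cases hP : Pool.Agent.Helper23.SP.Pass γ ω k
    · -- everything is revealed
      have hmk : ∀ i ≤ k, hm S ω i = supp γ := fun i hi => by
        rw [hS0]; exact hm_supp (hP.mono hi)
      have hid : ∀ e, γ e * (if lam.1 e = true then vl L Y Q ω.1 (cmp ω.2 lam) e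
          else if e ∈ S then rpM L Y S ω lam e else 0) =
          γ e * vl L Y Q ω.1 (cmp ω.2 lam) e := by
        intro e
        by_cases he : γ e = 0
        · rw [he, zero_mul, zero_mul]
        · have hes : e ∈ supp γ := Pool.Agent.Helper23.SP.mem_supp.2 he
          rw [if_neg (by rw [hal e he]; decide), hS0, if_pos hes, vl_nd L Y Q ω (hal e he)]
          unfold rpM
          rw [← hS0, hmk k le_rfl, if_pos hes]
          congr 1
          unfold nz
          congr 1
          refine sum_congr rfl fun i _ => ?_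
          rw [hmk i.val i.isLt.le, if_pos hes]
      rw [sum_congr rfl fun e _ => hid e]
      refine ⟨rfl, fun _ _ _ _ hxk => ?_⟩
      rw [hmk k le_rfl] at hxk
      have hx0 : γ x = 0 := by
        by_contra h0
        exact hxk (Pool.Agent.Helper23.SP.mem_supp.2 h0)
      congr 2
      refine sum_congr rfl fun e _ => ?_
      by_cases he : e = x
      · rw [he, hx0, zero_mul, zero_mul]
      · rw [if_neg he]
    · -- the first level with a nonzero class
      have hex : ∃ j : ℕ, ¬ Pool.Agent.Helper23.SP.Pass γ ω j := ⟨k, hP⟩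
      have hfind := Nat.find_spec hex
      have hmin : ∀ j < Nat.find hex, Pool.Agent.Helper23.SP.Pass γ ω j := fun j hj => by
        have := Nat.find_min hex hj
        rwa [not_not] at this
      set r := Nat.find hex with hr
      have hr0 : r ≠ 0 := by
        intro h0
        apply hfind
        intro i hi
        omega
      obtain ⟨j, hj⟩ := Nat.exists_eq_succ_of_ne_zero hr0
      have hPj : Pool.Agent.Helper23.SP.Pass γ ω j := hmin j (by omega)
      have hex2 : ∃ i : Fin k, i.val = j ∧ ∃ u : Fin U,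
          ∑ e ∈ univ.filter (fun e => g i ω e = u), γ e ≠ 0 := by
        by_contra hcon
        push Not at hcon
        apply hfind
        intro i hi u
        rcases Nat.lt_or_ge i.val j with h1 | h1
        · exact hPj i h1 u
        · exact hcon i (by omega) u
      obtain ⟨i0, hi0, u, hu⟩ := hex2
      have hZ0 : Zm γ ω lam i0 ≠ 0 :=
        Pool.Agent.Helper59.SP.Zs_ne_zero (hok.1 i0) hs hγ' hu
      have hZl : ∀ i < i0, Zm γ ω lam i = 0 := by
        intro i hi
        unfold Zm
        rw [Pool.Agent.Helper59.SP.Zs_eq]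
        refine sum_eq_zero fun u _ => ?_
        rw [hPj i (by rw [← hi0]; exact hi) u, zero_mul]
      have hmj : ∀ i ≤ i0, hm S ω i.val = supp γ := fun i hi => by
        rw [hS0]
        refine hm_supp (hPj.mono ?_)
        rw [← hi0]
        exact hi
      have hre := sign_lvl (V := vl L Y Q ω.1 (cmp ω.2 lam)) hz hγ' hYs hLB hZl hZ0
        (A := fun _ => univ) (fun _ _ e _ => mem_univ e) (w := nz lam) (abs_nz_le lam)
        (fun e he => by
          rw [vl_nd L Y Q ω (hal e he)]
          congr 1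
          refine sum_congr rfl fun i _ => ?_
          rw [if_pos (mem_univ e)])
      have hid := sign_lvl (V := fun e => if lam.1 e = true then vl L Y Q ω.1 (cmp ω.2 lam) e
          else if e ∈ S then rpM L Y S ω lam e else 0) hz hγ' hYs hLB hZl hZ0
        (A := fun i => hm S ω i.val) (fun i hi e he => by
          rw [hmj i hi]; exact Pool.Agent.Helper23.SP.mem_supp.2 he)
        (w := fun e => if e ∈ hm S ω k then nz lam e else 0)
        (fun e => by
          show |if e ∈ hm S ω k then nz lam e else 0| ≤ _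
          split_ifs
          · exact abs_nz_le lam e
          · rw [abs_zero]; positivity)
        (fun e he => by
          show (if lam.1 e = true then vl L Y Q ω.1 (cmp ω.2 lam) e
            else if e ∈ S then rpM L Y S ω lam e else 0) = _
          rw [if_neg (by rw [hal e he]; decide), if_pos (by
            rw [hS0]; exact Pool.Agent.Helper23.SP.mem_supp.2 he)]
          rfl)
      refine ⟨hre.trans hid.symm, fun hx hy _ hdig _ => ?_⟩
      refine Eq.trans (sign_lvl (V := fun e => if e = x then vl L Y Q ω.1 (cmp ω.2 lam) y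
          else vl L Y Q ω.1 (cmp ω.2 lam) e) hz hγ' hYs hLB hZl hZ0
        (A := fun _ => univ) (fun _ _ e _ => mem_univ e)
        (w := fun e => if e = x then nz lam y else nz lam e)
        (fun e => by
          show |if e = x then nz lam y else nz lam e| ≤ _
          split_ifs
          · exact abs_nz_le lam y
          · exact abs_nz_le lam e)
        (fun e he => ?_)) hid.symm
      show (if e = x then vl L Y Q ω.1 (cmp ω.2 lam) y
          else vl L Y Q ω.1 (cmp ω.2 lam) e) = _ + (if e = x then nz lam y else nz lam e)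
      by_cases hex' : e = x
      · rw [if_pos hex', if_pos hex', vl_nd L Y Q ω hy]
        congr 1
        refine sum_congr rfl fun i _ => ?_
        rw [if_pos (mem_univ e), hex']
        have hg : g i ω y = g i ω x := by
          unfold g
          rw [hdig]
        rw [hg]
      · rw [if_neg hex', if_neg hex', vl_nd L Y Q ω (hal e he)]
        congr 1
        refine sum_congr rfl fun i _ => ?_
        rw [if_pos (mem_univ e)]

end sgn

end Pool.Agent.Helper21.MX
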